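import Pool.Agent.Helper74.QR.Stm

/-!
# The action of an automorphism on `z` and `y`
-/

set_option autoImplicit false

namespace Pool.Agent.Helper74.QR.ACT

open IntermediateField

/-- an algebra automorphism which fixes `x` fixes `F⟮x⟯` -/
lemma fix_adjoin {F Ω : Type} [Field F] [Field Ω] [Algebra F Ω] (g : Ω ≃ₐ[F] Ω) (x : Ω) (hx : g x = x)
    (w : Ω) (hw : w ∈ F⟮x⟯) : g w = w := by
  have h1 : F⟮x⟯ ≤ IntermediateField.fixedField (Subgroup.zpowers g) := by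
    rw [IntermediateField.adjoin_simple_le_iff, IntermediateField.mem_fixedField_iff]
    intro f hf
    have h2 : Subgroup.zpowers g ≤ MulAction.stabilizer (Ω ≃ₐ[F] Ω) x := by
      rw [Subgroup.zpowers_le]
      exact hx
    exact h2 hf
  have h3 := h1 hw
  rw [IntermediateField.mem_fixedField_iff] at h3
  exact h3 g (Subgroup.mem_zpowers g)

/-- roots of `x ^ N = a ^ N` -/
lemma eq_mul_pow {Ω : Type} [Field Ω] {N : ℕ} (hN : 0 < N) {ζ : Ω} (hζ : IsPrimitiveRoot ζ N) {a b : Ω}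
    (ha : a ≠ 0) (h : b ^ N = a ^ N) : ∃ i : ℕ, b = a * ζ ^ i := by
  have : NeZero N := ⟨hN.ne'⟩
  have h1 : (b / a) ^ N = 1 := by
    rw [div_pow, h, div_self (pow_ne_zero _ ha)]
  obtain ⟨i, -, hi⟩ := hζ.eq_pow_of_pow_eq_one h1
  exact ⟨i, by rw [hi]; field_simp⟩

/-- exponents -/
lemma dvd_of_pow_eq {Ω : Type} [Field Ω] {N : ℕ} {ζ : Ω} (hζ : IsPrimitiveRoot ζ N) (h0 : ζ ≠ 0) {a b : ℕ}
    (h : ζ ^ a = ζ ^ b) : (N : ℤ) ∣ (a : ℤ) - b := by
  rw [← hζ.zpow_eq_one_iff_dvd, zpow_sub₀ h0, zpow_natCast, zpow_natCast, h,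
    div_self (pow_ne_zero _ h0)]

theorem main : S_ACT := by
  intro F Ω _ _ _ _ m z y n hm hz hz3 hy0 hy g
  set ω : Ω := z ^ (3 ^ (m - 1)) with hωdef
  clear_value ω
  have hmm : 3 ^ m = 3 ^ (m - 1) * 3 := by
    rw [← pow_succ]; congr 1; omega
  have hmm' : 3 ^ m = 3 * 3 ^ (m - 1) := by rw [hmm, mul_comm]
  have h3m : 0 < 3 ^ m := by positivity
  have h3m' : 0 < 3 ^ (m - 1) := by positivity
  have hω : IsPrimitiveRoot ω 3 := by rw [hωdef]; exact hz.pow (by positivity) hmm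
  have hz0 : z ≠ 0 := hz.ne_zero h3m.ne'
  have hω3 := hω.pow_eq_one
  have hω2 : ω ^ 2 + ω + 1 = 0 := by
    have h1 : (ω - 1) * (ω ^ 2 + ω + 1) = 0 := by linear_combination hω3
    rcases mul_eq_zero.mp h1 with h | h
    · exact absurd (sub_eq_zero.mp h) (hω.ne_one (by norm_num))
    · exact h
  have hN : ((n : Ω) + ω) * ((n : Ω) + ω ^ 2) = ((n ^ 2 - n + 1 : ℤ) : Ω) := by
    push_cast
    linear_combination ((n : Ω) + ω - 1) * hω2
  have hN0 : ((n ^ 2 - n + 1 : ℤ) : Ω) ≠ 0 := by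
    rw [Int.cast_ne_zero]
    nlinarith [sq_nonneg (2 * n - 1)]
  have ha0 : (n : Ω) + ω ≠ 0 := by
    intro h; rw [h, zero_mul] at hN; exact hN0 hN.symm
  have hb0 : (n : Ω) + ω ^ 2 ≠ 0 := by
    intro h; rw [h, mul_zero] at hN; exact hN0 hN.symm
  have hyq : y ^ (3 ^ m) = ((n : Ω) + ω) / ((n : Ω) + ω ^ 2) := by
    rw [eq_div_iff hb0]; exact hy
  have hz3p : IsPrimitiveRoot (z ^ 3) (3 ^ (m - 1)) := hz.pow h3m hmm'
  -- `g ω`
  have hgω : g ω = ω ∨ g ω = ω ^ 2 := by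
    have h1 : (g ω - ω) * (g ω - ω ^ 2) = 0 := by
      have h2 : (g ω) ^ 2 + g ω + 1 = 0 := by
        rw [← map_pow, ← map_add, ← map_one g, ← map_add, hω2, map_zero]
      linear_combination h2 - g ω * hω2 + hω3
    rcases mul_eq_zero.mp h1 with h | h
    · exact Or.inl (sub_eq_zero.mp h)
    · exact Or.inr (sub_eq_zero.mp h)
  rcases hgω with h | h
  · -- `e = 1`
    have hg3 : g (z ^ 3) = z ^ 3 := fix_adjoin g ω h _ hz3
    have h1 : (g z) ^ 3 = z ^ 3 := by rw [← map_pow, hg3]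
    obtain ⟨j, hj⟩ := eq_mul_pow (by norm_num) hω hz0 h1
    have h2 : (g y) ^ (3 ^ m) = y ^ (3 ^ m) := by
      rw [← map_pow, hyq, map_div₀, map_add, map_add, map_intCast, map_pow, h]
    obtain ⟨t, ht⟩ := eq_mul_pow h3m hz hy0 h2
    refine ⟨1, j, t, Or.inl rfl, ?_, ?_⟩
    · rw [one_mul, zpow_add₀ hz0, zpow_one, hj, hωdef]
      congr 1
      rw [← pow_mul, ← zpow_natCast]
      congr 1
    · rw [zpow_one, one_mul, zpow_natCast]
      exact ht
  · -- `e = -1`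
    have hωinv : ω ^ 2 = ω⁻¹ := by
      apply eq_inv_of_mul_eq_one_left
      rw [← pow_succ, hω3]
    have hg2 : g (g ω) = ω := by
      rw [h, map_pow, h]
      calc (ω ^ 2) ^ 2 = ω ^ 3 * ω := by ring
        _ = ω := by rw [hω3, one_mul]
    -- `g (z^3) = (z^3)^a`
    have h3 : (g (z ^ 3)) ^ (3 ^ (m - 1)) = 1 := by rw [← map_pow, hz3p.pow_eq_one, map_one]
    have : NeZero (3 ^ (m - 1)) := ⟨h3m'.ne'⟩
    obtain ⟨a, -, ha⟩ := hz3p.eq_pow_of_pow_eq_one h3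
    have hgg : g (g (z ^ 3)) = z ^ 3 := by
      have := fix_adjoin (g * g) ω hg2 _ hz3
      exact this
    have haa : (z ^ 3) ^ (a * a) = (z ^ 3) ^ 1 := by
      rw [pow_one, pow_mul, ha, ← map_pow, ha, hgg]
    have hmod : (3 : ℤ) ^ (m - 1) ∣ (a : ℤ) * a - 1 := by
      have h4 := dvd_of_pow_eq hz3p (pow_ne_zero _ hz0) haa
      push_cast at h4
      exact h4
    have ham : (3 : ℤ) ∣ (a : ℤ) + 1 := by
      -- `g ω = ω^a = ω^2`
      have h4 : g ω = ω ^ a := by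
        have h5 : ω = (z ^ 3) ^ (3 ^ (m - 2)) := by
          rw [hωdef, ← pow_mul]
          congr 1
          rw [← pow_succ']
          congr 1
          omega
        rw [h5, map_pow, ← ha]
        exact pow_right_comm _ _ _
      rw [h] at h4
      have h5 := dvd_of_pow_eq hω (hω.ne_zero (by norm_num)) h4
      push_cast at h5
      omega
    have hnd : ¬ (3 : ℤ) ∣ (a : ℤ) - 1 := by omega
    have hdvd : (3 : ℤ) ^ (m - 1) ∣ (a : ℤ) + 1 := by
      have h4 : IsCoprime ((3 : ℤ) ^ (m - 1)) ((a : ℤ) - 1) := by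
        apply IsCoprime.pow_left
        exact (Int.prime_three.coprime_iff_not_dvd).mpr hnd
      have h5 : (3 : ℤ) ^ (m - 1) ∣ ((a : ℤ) - 1) * ((a : ℤ) + 1) := by
        have h6 : ((a : ℤ) - 1) * ((a : ℤ) + 1) = (a : ℤ) * a - 1 := by ring
        rw [h6]; exact hmod
      exact h4.dvd_of_dvd_mul_left h5
    have hgz : g (z ^ 3) = (z ^ 3)⁻¹ := by
      apply eq_inv_of_mul_eq_one_left
      rw [← ha, ← pow_succ, hz3p.pow_eq_one_iff_dvd]
      exact_mod_cast hdvd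
    have h1 : (g z) ^ 3 = (z⁻¹) ^ 3 := by rw [← map_pow, hgz, inv_pow]
    obtain ⟨j, hj⟩ := eq_mul_pow (by norm_num) hω (inv_ne_zero hz0) h1
    have h2 : (g y) ^ (3 ^ m) = (y⁻¹) ^ (3 ^ m) := by
      rw [← map_pow, inv_pow, hyq, map_div₀, map_add, map_add, map_intCast, map_pow, h, inv_div]
      congr 1
      rw [← pow_mul]
      have : ω ^ (2 * 2) = ω := by
        calc ω ^ (2 * 2) = ω ^ 3 * ω := by ring
          _ = ω := by rw [hω3, one_mul]
      rw [this]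
    obtain ⟨t, ht⟩ := eq_mul_pow h3m hz (inv_ne_zero hy0) h2
    refine ⟨-1, -j, -t, Or.inr rfl, ?_, ?_⟩
    · rw [hj, hωdef, ← zpow_neg_one, ← pow_mul, ← zpow_natCast, ← zpow_add₀ hz0]
      congr 1
      push_cast
      ring
    · rw [ht, zpow_neg_one]
      congr 1
      rw [← zpow_natCast]
      congr 1
      ring

end Pool.Agent.Helper74.QR.ACT
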