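import Pool.Agent.Helper74.QR.Stm

/-!
# Some `(n + ω) / (n + ω²)` is not a cube in a given number field
-/

set_option autoImplicit false

namespace Pool.Agent.Helper74.QR.BETA

open NumberField

/-- For a prime `p ≡ 1 mod 3` some `n ^ 2 - n + 1` is exactly divisible by `p`. -/
theorem exists_n (p : ℕ) (hp : p.Prime) (hp1 : p ≡ 1 [MOD 3]) :
    ∃ n u : ℤ, n ^ 2 - n + 1 = p * u ∧ ¬ (p : ℤ) ∣ u := by
  have : Fact p.Prime := ⟨hp⟩
  have hp3 : 3 ∣ p - 1 := by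
    have := (Nat.modEq_iff_dvd' hp.one_lt.le).1 hp1.symm
    exact this
  have hpne : p ≠ 3 := by
    rintro rfl
    revert hp1
    decide
  have hp' : Prime (p : ℤ) := Nat.prime_iff_prime_int.1 hp
  have hndvd3 : ¬ (p : ℤ) ∣ 3 := by
    intro h
    have h2 : p ∣ 3 := by exact_mod_cast h
    exact hpne ((Nat.prime_dvd_prime_iff_eq hp Nat.prime_three).1 h2)
  have : Fact (Nat.Prime 3) := ⟨Nat.prime_three⟩
  obtain ⟨g, hg⟩ := exists_prime_orderOf_dvd_card (G := (ZMod p)ˣ) 3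
    (by rw [ZMod.card_units_eq_totient, Nat.totient_prime hp]; exact hp3)
  set ζ : ZMod p := (g : ZMod p) with hζ
  have h3 : ζ ^ 3 = 1 := by
    have h := pow_orderOf_eq_one g
    rw [hg] at h
    rw [hζ, ← Units.val_pow_eq_pow_val, h, Units.val_one]
  have hne1 : ζ ≠ 1 := by
    intro h
    have : g = 1 := Units.ext h
    rw [this, orderOf_one] at hg
    norm_num at hg
  have hq : ζ ^ 2 + ζ + 1 = 0 := by
    have h : (ζ - 1) * (ζ ^ 2 + ζ + 1) = 0 := by linear_combination h3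
    rcases mul_eq_zero.1 h with h | h
    · exact absurd (sub_eq_zero.1 h) hne1
    · exact h
  obtain ⟨n₀, hn₀⟩ := ZMod.intCast_surjective (-ζ)
  have hdvd : (p : ℤ) ∣ n₀ ^ 2 - n₀ + 1 := by
    rw [← ZMod.intCast_zmod_eq_zero_iff_dvd]
    push_cast
    rw [hn₀]
    linear_combination hq
  obtain ⟨u, hu⟩ := hdvd
  by_cases hpu : (p : ℤ) ∣ u
  · obtain ⟨w, hw⟩ := hpu
    refine ⟨n₀ + p, u + (2 * n₀ - 1) + p, by linear_combination hu, ?_⟩
    intro h
    have h1 : (p : ℤ) ∣ 2 * n₀ - 1 := by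
      have h2 : 2 * n₀ - 1 = (u + (2 * n₀ - 1) + p) - p * w - p := by rw [← hw]; ring
      rw [h2]
      exact dvd_sub (dvd_sub h (dvd_mul_right _ _)) dvd_rfl
    apply hndvd3
    have h4 : (3 : ℤ) = 4 * (n₀ ^ 2 - n₀ + 1) - (2 * n₀ - 1) * (2 * n₀ - 1) := by ring
    rw [h4, hu]
    exact dvd_sub ((dvd_mul_right _ _).mul_left _) (h1.mul_left _)
  · exact ⟨n₀, u, hu, hpu⟩

theorem main : S_BETA := by
  intro E _ _ ω hω
  -- the different
  have hD : differentIdeal ℤ (𝓞 E) ≠ ⊥ := differentIdeal_ne_bot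
  set M := Ideal.absNorm (differentIdeal ℤ (𝓞 E)) with hM
  have hM0 : M ≠ 0 := by
    rw [hM, Ne, Ideal.absNorm_eq_zero_iff]
    exact hD
  obtain ⟨p, hp, hpM, hp1⟩ := Nat.exists_prime_gt_modEq_one (k := 3) M (by norm_num)
  obtain ⟨n, u, hnu, hpu⟩ := exists_n p hp hp1
  refine ⟨n, fun x hx => ?_⟩
  have hp' : Prime (p : ℤ) := Nat.prime_iff_prime_int.1 hp
  -- a prime above `p`
  have hmax : (Ideal.span {(p : ℤ)}).IsMaximal :=
    PrincipalIdealRing.isMaximal_of_irreducible hp'.irreducible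
  obtain ⟨P, hP, hPover⟩ := Ideal.exists_maximal_ideal_liesOver_of_isIntegral (S := 𝓞 E)
    (Ideal.span {(p : ℤ)})
  have hPp : P.IsPrime := hP.isPrime
  have hpP : ((p : ℤ) : 𝓞 E) ∈ P := by
    have h1 : (p : ℤ) ∈ Ideal.span {(p : ℤ)} := Ideal.mem_span_singleton_self _
    rw [hPover.over] at h1
    exact h1
  have hp0 : ((p : ℤ) : 𝓞 E) ≠ 0 := by
    exact_mod_cast hp.ne_zero
  have hPne : P ≠ ⊥ := by
    rintro rfl
    exact hp0 (by simpa using hpP)
  have hPprime : Prime P := Ideal.prime_of_isPrime hPne hPp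
  -- integers in `P` are divisible by `p`
  have hint : ∀ k : ℤ, (k : 𝓞 E) ∈ P → (p : ℤ) ∣ k := by
    intro k hk
    rw [← Ideal.mem_span_singleton, hPover.over]
    exact hk
  -- `P` does not divide the different
  have hPD : ¬ P ∣ differentIdeal ℤ (𝓞 E) := by
    intro h
    have h1 : ((M : ℤ) : 𝓞 E) ∈ P := by
      have h2 : ((M : ℕ) : 𝓞 E) ∈ differentIdeal ℤ (𝓞 E) := Ideal.absNorm_mem _
      have h3 := Ideal.le_of_dvd h h2
      simpa using h3
    have h2 := hint _ h1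
    have h3 : p ∣ M := by exact_mod_cast h2
    exact absurd (Nat.le_of_dvd (Nat.pos_of_ne_zero hM0) h3) (not_le.2 hpM)
  have hP2 : ¬ P ^ 2 ∣ Ideal.span {((p : ℤ) : 𝓞 E)} := by
    intro h
    apply hPD
    have h1 := pow_sub_one_dvd_differentIdeal ℤ (p := Ideal.span {(p : ℤ)}) P 2
      (by rw [Ne, Ideal.span_singleton_eq_bot]; exact hp'.ne_zero)
      (by rw [Ideal.map_span, Set.image_singleton]; simpa using h)
    simpa using h1
  -- multiplicities
  set μ : 𝓞 E → ℕ := fun a => multiplicity P (Ideal.span {a}) with hμ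
  have hfin : ∀ a : 𝓞 E, a ≠ 0 → FiniteMultiplicity P (Ideal.span {a}) := fun a ha =>
    FiniteMultiplicity.of_prime_left hPprime (by
      rw [Ne, Ideal.zero_eq_bot, Ideal.span_singleton_eq_bot]; exact ha)
  have hmul : ∀ a b : 𝓞 E, a ≠ 0 → b ≠ 0 → μ (a * b) = μ a + μ b := by
    intro a b ha hb
    have h := hfin (a * b) (mul_ne_zero ha hb)
    simp only [hμ]
    rw [← Ideal.span_singleton_mul_span_singleton] at h ⊢
    exact multiplicity_mul hPprime h
  have hμp : μ ((p : ℤ) : 𝓞 E) = 1 := by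
    apply multiplicity_eq_of_dvd_of_not_dvd
    · rw [pow_one, Ideal.dvd_span_singleton]
      exact hpP
    · exact hP2
  have hμu : μ (u : 𝓞 E) = 0 := by
    rw [hμ]
    simp only
    rw [multiplicity_eq_zero, Ideal.dvd_span_singleton]
    exact fun h => hpu (hint u h)
  -- the integer `ω`
  have hωint : IsIntegral ℤ ω := by
    refine ⟨Polynomial.X ^ 2 + Polynomial.X + 1, ?_, ?_⟩
    · monicity!
    · simpa using hω
  set w : 𝓞 E := ⟨ω, hωint⟩ with hw
  have hwω : (algebraMap (𝓞 E) E) w = ω := rfl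
  have hw2 : w ^ 2 + w + 1 = 0 := by
    apply RingOfIntegers.coe_injective
    have h : (algebraMap (𝓞 E) E) w ^ 2 + (algebraMap (𝓞 E) E) w + 1 = 0 := hω
    simpa using h
  have hAB : ((n : 𝓞 E) + w) * ((n : 𝓞 E) + w ^ 2) = ((p : ℤ) : 𝓞 E) * (u : 𝓞 E) := by
    have h1 : ((n ^ 2 - n + 1 : ℤ) : 𝓞 E) = ((p * u : ℤ) : 𝓞 E) := by rw [hnu]
    push_cast at h1 ⊢
    linear_combination h1 + (n + w - 1) * hw2
  have hu0 : (u : 𝓞 E) ≠ 0 := by
    intro h
    have : u = 0 := by exact_mod_cast h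
    exact hpu (this ▸ dvd_zero _)
  have hAB0 : ((n : 𝓞 E) + w) * ((n : 𝓞 E) + w ^ 2) ≠ 0 := by
    rw [hAB]
    exact mul_ne_zero hp0 hu0
  have hA0 : (n : 𝓞 E) + w ≠ 0 := left_ne_zero_of_mul hAB0
  have hB0 : (n : 𝓞 E) + w ^ 2 ≠ 0 := right_ne_zero_of_mul hAB0
  have hsum : μ ((n : 𝓞 E) + w) + μ ((n : 𝓞 E) + w ^ 2) = 1 := by
    rw [← hmul _ _ hA0 hB0, hAB, hmul _ _ hp0 hu0, hμp, hμu]
  -- the quotient
  obtain ⟨c, d, hd, hcd⟩ := IsFractionRing.div_surjective (A := 𝓞 E) x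
  have hd0 : d ≠ 0 := nonZeroDivisors.ne_zero hd
  have hd0' : algebraMap (𝓞 E) E d ≠ 0 := by
    rw [Ne, FaithfulSMul.algebraMap_eq_zero_iff]
    exact hd0
  have heq : c ^ 3 * ((n : 𝓞 E) + w ^ 2) = d ^ 3 * ((n : 𝓞 E) + w) := by
    apply RingOfIntegers.coe_injective
    rw [← hcd, div_pow, div_mul_eq_mul_div, div_eq_iff (pow_ne_zero 3 hd0')] at hx
    simp only [map_mul, map_pow, map_add, map_intCast, hwω]
    rw [hx]
    ring
  have hc0 : c ≠ 0 := by
    rintro rfl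
    rw [zero_pow (by norm_num), zero_mul] at heq
    exact (mul_ne_zero (pow_ne_zero 3 hd0) hA0) heq.symm
  have hcube : ∀ a : 𝓞 E, a ≠ 0 → μ (a ^ 3) = 3 * μ a := by
    intro a ha
    rw [pow_succ, pow_two, hmul _ _ (mul_ne_zero ha ha) ha, hmul _ _ ha ha]
    ring
  have hfinal := congrArg μ heq
  rw [hmul _ _ (pow_ne_zero 3 hc0) hB0, hmul _ _ (pow_ne_zero 3 hd0) hA0, hcube c hc0,
    hcube d hd0] at hfinal
  omega

end Pool.Agent.Helper74.QR.BETA
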