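import Pool.Agent.Helper74.QR.Stm

/-!
# Module CHI: the normal subgroup of index 3 and its character (helper15)
-/

set_option autoImplicit false

open scoped Classical

namespace Pool.Agent.Helper74.QR.CHI

/-- uniqueness of the exponents -/
theorem uniq {A : Type} [CommGroup A] (m : ℕ) (z y : A) (hm : 2 ≤ m) (hz : orderOf z = 3 ^ m)
    (e j t e' j' t' : ℤ) (he : e = 1 ∨ e = -1) (he' : e' = 1 ∨ e' = -1)
    (h1 : z ^ (e * (1 + 3 ^ (m - 1) * j)) = z ^ (e' * (1 + 3 ^ (m - 1) * j')))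
    (h2 : y ^ e * z ^ (e * t) = y ^ e' * z ^ (e' * t')) :
    e = e' ∧ (3 : ℤ) ∣ j - j' ∧ (3 : ℤ) ^ m ∣ t - t' := by
  obtain ⟨c, hc, hq⟩ : ∃ c : ℤ, (3 : ℤ) ^ (m - 1) = 3 * c ∧ (3 : ℤ) ^ m = 3 * (3 * c) := by
    refine ⟨3 ^ (m - 2), ?_, ?_⟩
    · rw [← pow_succ']
      congr 1
      omega
    · rw [← pow_succ', ← pow_succ']
      congr 1
      omega
  have hc0 : c ≠ 0 := by
    rintro rfl
    rw [mul_zero, mul_zero] at hq
    exact absurd hq (by positivity)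
  have hz' : ((orderOf z : ℕ) : ℤ) = 3 ^ m := by rw [hz]; push_cast; rfl
  have h3 : (3 : ℤ) ^ m ∣ e * (1 + 3 ^ (m - 1) * j) - e' * (1 + 3 ^ (m - 1) * j') := by
    rw [← hz', orderOf_dvd_iff_zpow_eq_one, zpow_sub, h1, mul_inv_cancel]
  have hee : e = e' := by
    rw [hq, hc] at h3
    obtain ⟨d, hd⟩ := h3
    have h4 : e - e' = 3 * (3 * c * d - e * (c * j) + e' * (c * j')) := by linarith
    rcases he with rfl | rfl <;> rcases he' with rfl | rfl <;> omega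
  subst hee
  refine ⟨rfl, ?_, ?_⟩
  · rw [hq, hc] at h3
    obtain ⟨d, hd⟩ := h3
    have h4 : (3 * c) * (e * (j - j')) = (3 * c) * (3 * d) := by linarith
    have h5 : e * (j - j') = 3 * d := mul_left_cancel₀ (mul_ne_zero (by norm_num) hc0) h4
    rcases he with rfl | rfl
    · exact ⟨d, by linarith⟩
    · exact ⟨-d, by linarith⟩
  · have h4 : z ^ (e * t) = z ^ (e * t') := mul_left_cancel h2
    have h5 : (3 : ℤ) ^ m ∣ e * t - e * t' := by
      rw [← hz', orderOf_dvd_iff_zpow_eq_one, zpow_sub, h4, mul_inv_cancel]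
    obtain ⟨d, hd⟩ := h5
    rcases he with rfl | rfl
    · exact ⟨d, by linarith⟩
    · exact ⟨-d, by linarith⟩

theorem main : S_CHI := by
  intro G A _ _ φ m z y hm hz h1 h2 h3 k _ w hw
  choose e j t he hφz hφy using h1
  obtain ⟨s, js, hjs, hs⟩ := h2
  obtain ⟨τ, tt, htt, hτz, hτy⟩ := h3
  obtain ⟨c, hc, hq⟩ : ∃ c : ℤ, (3 : ℤ) ^ (m - 1) = 3 * c ∧ (3 : ℤ) ^ m = 3 * (3 * c) := by
    refine ⟨3 ^ (m - 2), ?_, ?_⟩
    · rw [← pow_succ']
      congr 1
      omega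
    · rw [← pow_succ', ← pow_succ']
      congr 1
      omega
  -- composition
  have hcomp : ∀ g h : G, e (g * h) = e g * e h ∧ (3 : ℤ) ∣ j (g * h) - (j g + j h) ∧
      (3 : ℤ) ^ m ∣ t (g * h) - (t g + (1 + 3 ^ (m - 1) * j g) * t h) := by
    intro g h
    have hee : e g * e h = 1 ∨ e g * e h = -1 := by
      rcases he g with h1 | h1 <;> rcases he h with h2 | h2 <;> rw [h1, h2] <;> norm_num
    have hz1 : φ (g * h) z = z ^ ((e g * e h) *
        (1 + 3 ^ (m - 1) * (j g + j h + 3 ^ (m - 1) * (j g * j h)))) := by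
      rw [map_mul, MulAut.mul_apply, hφz h, map_zpow, hφz g, ← zpow_mul]
      congr 1
      ring
    have hy1 : φ (g * h) y = y ^ (e g * e h) * z ^ ((e g * e h) *
        (t g + (1 + 3 ^ (m - 1) * j g) * t h)) := by
      rw [map_mul, MulAut.mul_apply, hφy h, map_mul, map_zpow, map_zpow, hφy g, hφz g, mul_zpow,
        ← zpow_mul, ← zpow_mul, ← zpow_mul, mul_assoc, ← zpow_add]
      congr 2
      ring
    obtain ⟨a1, a2, a3⟩ := uniq m z y hm hz _ _ _ _ _ _ (he (g * h)) hee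
      ((hφz (g * h)).symm.trans hz1) ((hφy (g * h)).symm.trans hy1)
    refine ⟨a1, ?_, a3⟩
    obtain ⟨d, hd⟩ := a2
    refine ⟨d + c * (j g * j h), ?_⟩
    rw [hc] at hd
    linarith
  -- the identity
  have hone : e 1 = 1 ∧ (3 : ℤ) ∣ j 1 ∧ (3 : ℤ) ^ m ∣ t 1 := by
    have a1 : z ^ (e 1 * (1 + 3 ^ (m - 1) * j 1)) = z ^ ((1 : ℤ) * (1 + 3 ^ (m - 1) * 0)) := by
      rw [← hφz 1, map_one]
      simp
    have a2 : y ^ e 1 * z ^ (e 1 * t 1) = y ^ (1 : ℤ) * z ^ ((1 : ℤ) * 0) := by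
      rw [← hφy 1, map_one]
      simp
    obtain ⟨b1, b2, b3⟩ := uniq m z y hm hz _ _ _ _ _ _ (he 1) (Or.inl rfl) a1 a2
    exact ⟨b1, by simpa using b2, by simpa using b3⟩
  -- the homomorphism to `ZMod 3`
  let J : G →* Multiplicative (ZMod 3) :=
    { toFun := fun g => Multiplicative.ofAdd ((j g : ℤ) : ZMod 3)
      map_one' := by
        rw [(ZMod.intCast_zmod_eq_zero_iff_dvd (j 1) 3).2 (by exact_mod_cast hone.2.1)]
        rfl
      map_mul' := by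
        intro g h
        rw [← ofAdd_add, ← Int.cast_add]
        congr 1
        rw [← sub_eq_zero, ← Int.cast_sub]
        exact (ZMod.intCast_zmod_eq_zero_iff_dvd _ 3).2 (by exact_mod_cast (hcomp g h).2.1) }
  have hJ : ∀ g : G, g ∈ J.ker ↔ (3 : ℤ) ∣ j g := by
    intro g
    rw [MonoidHom.mem_ker]
    have h1 : J g = 1 ↔ ((j g : ℤ) : ZMod 3) = 0 := by
      constructor
      · intro h
        exact Multiplicative.ofAdd.injective h
      · intro h
        change Multiplicative.ofAdd ((j g : ℤ) : ZMod 3) = 1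
        rw [h]
        rfl
    rw [h1]
    have := ZMod.intCast_zmod_eq_zero_iff_dvd (j g) 3
    exact_mod_cast this
  -- the exponents of `s` and `τ`
  have hs' : (3 : ℤ) ∣ j s - js ∧ e s = 1 := by
    have a1 : z ^ (e s * (1 + 3 ^ (m - 1) * j s)) = z ^ ((1 : ℤ) * (1 + 3 ^ (m - 1) * js)) := by
      rw [← hφz s, hs, one_mul]
    -- only the first component is used
    obtain ⟨b1, b2, -⟩ := uniq m z 1 hm hz (e s) (j s) 0 1 js 0 (he s) (Or.inl rfl) a1 (by simp)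
    exact ⟨b2, b1⟩
  have hτ' : e τ = 1 ∧ (3 : ℤ) ∣ j τ ∧ (3 : ℤ) ^ m ∣ t τ - tt := by
    have a1 : z ^ (e τ * (1 + 3 ^ (m - 1) * j τ)) = z ^ ((1 : ℤ) * (1 + 3 ^ (m - 1) * 0)) := by
      rw [← hφz τ, hτz]
      simp
    have a2 : y ^ e τ * z ^ (e τ * t τ) = y ^ (1 : ℤ) * z ^ ((1 : ℤ) * tt) := by
      rw [← hφy τ, hτy]
      simp
    obtain ⟨b1, b2, b3⟩ := uniq m z y hm hz _ _ _ _ _ _ (he τ) (Or.inl rfl) a1 a2
    exact ⟨b1, by simpa using b2, b3⟩
  have hjs' : ¬ (3 : ℤ) ∣ j s := by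
    intro h
    apply hjs
    obtain ⟨d, hd⟩ := hs'.1
    obtain ⟨d', hd'⟩ := h
    exact ⟨d' - d, by linarith⟩
  have hJs : ((j s : ℤ) : ZMod 3) ≠ 0 := by
    intro h
    apply hjs'
    have := (ZMod.intCast_zmod_eq_zero_iff_dvd (j s) 3).1 h
    exact_mod_cast this
  have hidx : J.ker.index = 3 := by
    rw [Subgroup.index_ker]
    have htop : J.range = ⊤ := by
      rw [MonoidHom.range_eq_top]
      intro x
      have hdec : ∀ a b : ZMod 3, a ≠ 0 → ∃ n : Fin 3, (n : ℕ) • a = b := by decide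
      obtain ⟨n, hn⟩ := hdec _ (Multiplicative.toAdd x) hJs
      refine ⟨s ^ (n : ℕ), ?_⟩
      rw [map_pow]
      change (Multiplicative.ofAdd ((j s : ℤ) : ZMod 3)) ^ (n : ℕ) = x
      rw [← ofAdd_nsmul, hn]
      rfl
    rw [htop, Subgroup.card_top]
    change Nat.card (ZMod 3) = 3
    rw [Nat.card_zmod]
  -- the root of unity
  have hq0 : (3 : ℕ) ^ m ≠ 0 := by positivity
  let W : kˣ := Units.mk0 w (hw.ne_zero hq0)
  have hW : IsPrimitiveRoot W (3 ^ m) := by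
    rw [← IsPrimitiveRoot.coe_units_iff]
    exact hw
  have hWz : ∀ a b : ℤ, (3 : ℤ) ^ m ∣ a - b → W ^ a = W ^ b := by
    intro a b h
    have h1 : W ^ (a - b) = 1 := (hW.zpow_eq_one_iff_dvd _).2 (by exact_mod_cast h)
    rw [zpow_sub, mul_inv_eq_one] at h1
    exact h1
  have hWz' : ∀ a b : ℤ, W ^ a = W ^ b → (3 : ℤ) ^ m ∣ a - b := by
    intro a b h
    have h1 : W ^ (a - b) = 1 := by rw [zpow_sub, h, mul_inv_cancel]
    have := (hW.zpow_eq_one_iff_dvd _).1 h1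
    exact_mod_cast this
  let χ : J.ker →* kˣ :=
    { toFun := fun g => W ^ t (g : G)
      map_one' := by
        have := hWz (t 1) 0 (by simpa using hone.2.2)
        rw [zpow_zero] at this
        exact this
      map_mul' := by
        intro g h
        change W ^ t ((g : G) * (h : G)) = W ^ t (g : G) * W ^ t (h : G)
        rw [← zpow_add]
        apply hWz
        obtain ⟨d, hd⟩ := (hcomp g h).2.2
        obtain ⟨d', hd'⟩ := (hJ g).1 g.2
        refine ⟨d + d' * t (h : G), ?_⟩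
        have hqc : (3 : ℤ) ^ m = 3 ^ (m - 1) * 3 := by rw [hq, hc]; ring
        rw [hqc] at hd ⊢
        rw [hd'] at hd
        linarith }
  have hχ : ∀ (g : G) (h : g ∈ J.ker), χ ⟨g, h⟩ = W ^ t g := fun g h => rfl
  -- conjugation
  have hconj : ∀ (x g : G), g ∈ J.ker →
      (3 : ℤ) ^ m ∣ t (x * g * x⁻¹) - (1 + 3 ^ (m - 1) * j x) * t g := by
    intro x g hg
    obtain ⟨d, hd⟩ := (hJ g).1 hg
    obtain ⟨d1, hd1⟩ := (hcomp (x * g) x⁻¹).2.2
    obtain ⟨d2, hd2⟩ := (hcomp x g).2.2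
    obtain ⟨d3, hd3⟩ := (hcomp x g).2.1
    obtain ⟨d4, hd4⟩ := (hcomp x x⁻¹).2.2
    obtain ⟨d5, hd5⟩ := hone.2.2
    rw [mul_inv_cancel] at hd4
    have hqc : (3 : ℤ) ^ m = 3 ^ (m - 1) * 3 := by rw [hq, hc]; ring
    have hjxg : j (x * g) = j x + 3 * (d + d3) := by linarith
    rw [hjxg] at hd1
    refine ⟨d1 + d2 - d4 + d5 + (d + d3) * t x⁻¹, ?_⟩
    rw [hqc] at hd1 hd2 hd4 hd5 ⊢
    linear_combination hd1 + hd2 - hd4 + hd5
  refine ⟨J.ker, χ, inferInstance, hidx, ?_, ?_, ?_⟩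
  · have hτN : τ ∈ J.ker := (hJ τ).2 hτ'.2.1
    refine ⟨s, ⟨τ, hτN⟩, (inferInstance : J.ker.Normal).conj_mem τ hτN s, ?_⟩
    rw [hχ, hχ]
    intro h
    have h1 := hWz' _ _ h
    obtain ⟨d1, hd1⟩ := h1
    obtain ⟨d2, hd2⟩ := hconj s τ hτN
    -- `3^m ∣ 3^(m-1) * j s * t τ`
    have hc0 : c ≠ 0 := by
      rintro rfl
      rw [mul_zero, mul_zero] at hq
      exact absurd hq (by positivity)
    rw [hq] at hd1 hd2
    rw [hc] at hd2
    have h5 : (3 * c) * (j s * t τ) = (3 * c) * (3 * (d1 - d2)) := by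
      linear_combination hd1 - hd2
    have h6 := mul_left_cancel₀ (mul_ne_zero (by norm_num) hc0) h5
    have h7 : (3 : ℤ) ∣ j s * t τ := ⟨_, h6⟩
    rcases (Int.prime_three).dvd_or_dvd h7 with h8 | h8
    · exact hjs' h8
    · apply htt
      obtain ⟨d3, hd3⟩ := hτ'.2.2
      obtain ⟨d4, hd4⟩ := h8
      rw [hq] at hd3
      exact ⟨d4 - 3 * c * d3, by linarith⟩
  · intro x
    change (W ^ t (x : G)) ^ (3 ^ m) = 1
    rw [← zpow_natCast, ← zpow_mul, mul_comm, zpow_mul, zpow_natCast, hW.pow_eq_one, one_zpow]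
  · intro g hgz hgy x
    have a1 : z ^ (e g * (1 + 3 ^ (m - 1) * j g)) = z ^ ((1 : ℤ) * (1 + 3 ^ (m - 1) * 0)) := by
      rw [← hφz g, hgz]
      simp
    have a2 : y ^ e g * z ^ (e g * t g) = y ^ (1 : ℤ) * z ^ ((1 : ℤ) * 0) := by
      rw [← hφy g, hgy]
      simp
    obtain ⟨b1, b2, b3⟩ := uniq m z y hm hz _ _ _ _ _ _ (he g) (Or.inl rfl) a1 a2
    have hg : g ∈ J.ker := (hJ g).2 (by simpa using b2)
    refine ⟨(inferInstance : J.ker.Normal).conj_mem g hg x, ?_⟩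
    rw [hχ]
    have h1 := hconj x g hg
    have h2 : (3 : ℤ) ^ m ∣ t (x * g * x⁻¹) - 0 := by
      obtain ⟨d1, hd1⟩ := h1
      obtain ⟨d2, hd2⟩ := b3
      exact ⟨d1 + (1 + 3 ^ (m - 1) * j x) * d2, by linear_combination hd1 + (1 + 3 ^ (m - 1) * j x) * hd2⟩
    rw [hWz _ _ h2, zpow_zero]

end Pool.Agent.Helper74.QR.CHI
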