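import Pool.Agent.Helper74.QR.Stm

/-!
# Module IND: the representation induced from a character of a normal subgroup of index 3 (helper15)
-/

set_option autoImplicit false

open scoped Classical

namespace Pool.Agent.Helper74.QR.IND

open Matrix

section

variable {G : Type} [Group G] {N : Subgroup G} {k : Type} [Field k] (χ : N →* kˣ)

/-- the character, extended by zero -/
noncomputable def c (g : G) : k := if h : g ∈ N then ((χ ⟨g, h⟩ : kˣ) : k) else 0

theorem c_mem {g : G} (h : g ∈ N) : c χ g = ((χ ⟨g, h⟩ : kˣ) : k) := dif_pos h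

theorem c_not {g : G} (h : g ∉ N) : c χ g = 0 := dif_neg h

theorem c_one : c χ (1 : G) = 1 := by
  rw [c_mem χ (one_mem N)]
  have : (⟨1, one_mem N⟩ : N) = 1 := rfl
  rw [this, map_one, Units.val_one]

theorem c_mul {g h : G} (hh : h ∈ N) : c χ (g * h) = c χ g * c χ h := by
  by_cases hg : g ∈ N
  · rw [c_mem χ (mul_mem hg hh), c_mem χ hg, c_mem χ hh, ← Units.val_mul, ← map_mul]
    rfl
  · have : g * h ∉ N := fun h1 => hg (by
      have := mul_mem h1 (inv_mem hh)
      rwa [mul_inv_cancel_right] at this)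
    rw [c_not χ this, c_not χ hg, zero_mul]

theorem c_mul' {g h : G} (hg : g ∈ N) : c χ (g * h) = c χ g * c χ h := by
  by_cases hh : h ∈ N
  · exact c_mul χ hh
  · have : g * h ∉ N := fun h1 => hh (by
      have := mul_mem (inv_mem hg) h1
      rwa [inv_mul_cancel_left] at this)
    rw [c_not χ this, c_not χ hh, mul_zero]

theorem c_ne {g : G} (h : g ∈ N) : c χ g ≠ 0 := by
  rw [c_mem χ h]
  exact Units.ne_zero _

variable {r : Fin 3 → G} (hr : ∀ g : G, ∃! i, (r i)⁻¹ * g ∈ N)

/-- the matrices -/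
noncomputable def mat (r : Fin 3 → G) (g : G) : Matrix (Fin 3) (Fin 3) k :=
  Matrix.of fun i j => c χ ((r i)⁻¹ * g * r j)

include hr in
theorem mem_iff (i j : Fin 3) : (r i)⁻¹ * r j ∈ N ↔ i = j := by
  constructor
  · intro h
    exact (hr (r j)).unique h (by rw [inv_mul_cancel]; exact one_mem N)
  · rintro rfl
    rw [inv_mul_cancel]
    exact one_mem N

include hr in
theorem mat_one : mat χ r (1 : G) = 1 := by
  ext i j
  rw [mat, Matrix.of_apply, mul_one]
  by_cases h : i = j
  · subst h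
    rw [inv_mul_cancel, c_one, Matrix.one_apply_eq]
  · rw [c_not χ (fun h1 => h ((mem_iff hr i j).1 h1)), Matrix.one_apply_ne h]

include hr in
theorem mat_mul (g h : G) : mat χ r (g * h) = mat χ r g * mat χ r h := by
  ext i j
  rw [Matrix.mul_apply]
  obtain ⟨l, hl, hu⟩ := hr (h * r j)
  rw [Finset.sum_eq_single l]
  · simp only [mat, Matrix.of_apply]
    rw [mul_assoc (r l)⁻¹, ← c_mul χ hl]
    congr 1
    group
  · intro b _ hb
    have : (r b)⁻¹ * h * r j ∉ N := by
      rw [mul_assoc]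
      exact fun h1 => hb (hu b h1)
    simp only [mat, Matrix.of_apply]
    rw [c_not χ this, mul_zero]
  · intro h1
    exact absurd (Finset.mem_univ _) h1

/-- the representation -/
noncomputable def rep : G →* Matrix.GeneralLinearGroup (Fin 3) k :=
  MonoidHom.toHomUnits
    { toFun := mat χ r
      map_one' := mat_one χ hr
      map_mul' := mat_mul χ hr }

theorem rep_val (g : G) : ((rep χ hr g : Matrix.GeneralLinearGroup (Fin 3) k) :
    Matrix (Fin 3) (Fin 3) k) = mat χ r g := rfl

/-- the kernel -/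
theorem rep_one (g : G) (hg : ∀ x : G, ∃ h : x * g * x⁻¹ ∈ N, χ ⟨x * g * x⁻¹, h⟩ = 1) :
    rep χ hr g = 1 := by
  apply Units.ext
  rw [rep_val, Units.val_one, ← mat_one χ hr]
  ext i j
  simp only [mat, Matrix.of_apply]
  obtain ⟨h, h1⟩ := hg (r i)⁻¹
  rw [inv_inv] at h
  have h2 : c χ ((r i)⁻¹ * g * r i) = 1 := by
    rw [c_mem χ h]
    have h3 : (⟨(r i)⁻¹ * g * r i, h⟩ : N) = ⟨(r i)⁻¹ * g * (r i)⁻¹⁻¹, by rw [inv_inv]; exact h⟩ := by
      apply Subtype.ext
      simp
    rw [h3, h1, Units.val_one]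
  have h4 : (r i)⁻¹ * g * r j = ((r i)⁻¹ * g * r i) * ((r i)⁻¹ * 1 * r j) := by group
  rw [h4, c_mul' χ h, h2, one_mul]

end

theorem main : S_IND := by
  intro G _ N k _ χ hN hidx hs
  have := hN
  have : Fact (Nat.Prime 3) := ⟨by norm_num⟩
  obtain ⟨s, n₀, hsn, hne⟩ := hs
  have hcard : Nat.card (G ⧸ N) = 3 := hidx
  -- `s ∉ N`
  have hsN : s ∉ N := by
    intro h
    apply hne
    have : (⟨s * n₀ * s⁻¹, hsn⟩ : N) = ⟨s, h⟩ * n₀ * ⟨s, h⟩⁻¹ := rfl
    rw [this, map_mul, map_mul, map_inv, mul_comm, inv_mul_cancel_left]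
  -- generators of the quotient
  have hgen : ∀ t : G, t ∉ N → ∀ g : G, ∃ z : ℤ, (t ^ z)⁻¹ * g ∈ N := by
    intro t ht g
    have h1 : (t : G ⧸ N) ≠ 1 := fun h => ht ((QuotientGroup.eq_one_iff t).1 h)
    obtain ⟨z, hz⟩ := Subgroup.mem_zpowers_iff.1
      (mem_zpowers_of_prime_card (p := 3) hcard h1 (g' := (g : G ⧸ N)))
    refine ⟨z, ?_⟩
    rw [← QuotientGroup.eq, QuotientGroup.mk_zpow]
    exact hz
  have hs3 : s ^ 3 ∈ N := by
    have := N.pow_index_mem s
    rwa [hidx] at this
  have hsz : ∀ z : ℤ, s ^ z ∈ N ↔ (3 : ℤ) ∣ z := by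
    intro z
    constructor
    · intro h
      have h1 : (s : G ⧸ N) ≠ 1 := fun h => hsN ((QuotientGroup.eq_one_iff s).1 h)
      have h2 : orderOf (s : G ⧸ N) = 3 := by
        apply orderOf_eq_prime _ h1
        rw [← QuotientGroup.mk_pow]
        exact (QuotientGroup.eq_one_iff _).2 hs3
      have h3 : (s : G ⧸ N) ^ z = 1 := by
        rw [← QuotientGroup.mk_zpow]
        exact (QuotientGroup.eq_one_iff _).2 h
      have h4 := orderOf_dvd_iff_zpow_eq_one.2 h3
      rw [h2] at h4
      exact_mod_cast h4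
    · rintro ⟨y, rfl⟩
      rw [_root_.zpow_mul]
      apply zpow_mem
      exact_mod_cast hs3
  have hr : ∀ g : G, ∃! i : Fin 3, (s ^ (i : ℕ))⁻¹ * g ∈ N := by
    intro g
    obtain ⟨z, hz⟩ := hgen s hsN g
    have hex : ∃ i : Fin 3, (s ^ (i : ℕ))⁻¹ * g ∈ N := by
      have h0 : (((z % 3).toNat : ℕ) : ℤ) = z % 3 :=
        Int.toNat_of_nonneg (Int.emod_nonneg z (by norm_num))
      have h1 := Int.emod_lt_of_pos z (by norm_num : (0 : ℤ) < 3)
      refine ⟨⟨(z % 3).toNat, by omega⟩, ?_⟩
      have h2 : (s ^ ((z % 3).toNat))⁻¹ * g = s ^ (z - z % 3) * ((s ^ z)⁻¹ * g) := by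
        rw [← zpow_natCast, h0, _root_.zpow_sub]
        group
      change (s ^ ((z % 3).toNat))⁻¹ * g ∈ N
      rw [h2]
      refine mul_mem ((hsz _).2 ?_) hz
      omega
    obtain ⟨i, hi⟩ := hex
    refine ⟨i, hi, ?_⟩
    intro j hj
    have h1 : (s ^ (j : ℕ))⁻¹ * g * ((s ^ (i : ℕ))⁻¹ * g)⁻¹ ∈ N := mul_mem hj (inv_mem hi)
    have h2 : (s ^ (j : ℕ))⁻¹ * g * ((s ^ (i : ℕ))⁻¹ * g)⁻¹ = s ^ ((i : ℤ) - (j : ℤ)) := by
      rw [_root_.zpow_sub, zpow_natCast, zpow_natCast]
      have : Commute (s ^ (i : ℕ)) (s ^ (j : ℕ))⁻¹ :=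
        ((Commute.refl s).pow_pow _ _).inv_right
      rw [this.eq]
      group
    rw [h2, hsz] at h1
    have h3 := i.2
    have h4 := j.2
    apply Fin.ext
    omega
  let r : Fin 3 → G := fun i => s ^ (i : ℕ)
  have hr' : ∀ g : G, ∃! i, (r i)⁻¹ * g ∈ N := hr
  refine ⟨rep χ hr', ?_, fun g hg => rep_one χ hr' g hg, ?_⟩
  · intro V hV
    rw [or_iff_not_imp_left]
    intro hbot
    set K := AlgebraicClosure k
    let f : k →+* K := algebraMap k K
    have hfinj : Function.Injective f := (algebraMap k K).injective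
    -- the stabilizer of the character
    let T : Subgroup G :=
      { carrier := {t : G | ∀ m ∈ N, c χ (t * m * t⁻¹) = c χ m}
        one_mem' := by
          intro m _
          simp
        mul_mem' := by
          intro a b ha hb m hm
          have h1 : a * b * m * (a * b)⁻¹ = a * (b * m * b⁻¹) * a⁻¹ := by group
          rw [h1, ha _ (hN.conj_mem m hm b), hb m hm]
        inv_mem' := by
          intro a ha m hm
          have h1 := ha (a⁻¹ * m * a⁻¹⁻¹) (hN.conj_mem m hm a⁻¹)
          rw [← h1]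
          congr 1
          group }
    have hNT : N ≤ T := by
      intro t ht m hm
      rw [c_mul' χ (mul_mem ht hm), c_mul' χ ht]
      have h1 : c χ t * c χ t⁻¹ = 1 := by
        rw [← c_mul' χ ht, mul_inv_cancel, c_one]
      calc c χ t * c χ m * c χ t⁻¹ = (c χ t * c χ t⁻¹) * c χ m := by ring
        _ = c χ m := by rw [h1, one_mul]
    have hsT : s ∉ T := by
      intro h
      apply hne
      have h1 := h (n₀ : G) n₀.2
      rw [c_mem χ hsn, c_mem χ n₀.2] at h1
      exact Units.ext h1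
    have hTN : ∀ t ∈ T, t ∈ N := by
      intro t ht
      by_contra htN
      obtain ⟨z, hz⟩ := hgen t htN s
      apply hsT
      have := mul_mem (zpow_mem ht z) (hNT hz)
      rwa [mul_inv_cancel_left] at this
    have hdist : ∀ i j : Fin 3, i ≠ j → ∃ n ∈ N,
        c χ ((r i)⁻¹ * n * r i) ≠ c χ ((r j)⁻¹ * n * r j) := by
      intro i j hij
      by_contra hcon
      push Not at hcon
      apply hij
      have h1 : (r j)⁻¹ * r i ∈ T := by
        intro m hm
        have h2 := hcon (r i * m * (r i)⁻¹) (hN.conj_mem m hm (r i))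
        have h3 : (r i)⁻¹ * (r i * m * (r i)⁻¹) * r i = m := by group
        rw [h3] at h2
        rw [h2]
        congr 1
        group
      exact ((mem_iff hr' j i).1 (hTN _ h1)).symm
    -- the action of `N`
    have hact : ∀ n ∈ N, ∀ x ∈ V, (fun i => f (c χ ((r i)⁻¹ * n * r i)) * x i) ∈ V := by
      intro n hn x hx
      have h1 := hV n x hx
      have h2 : ((rep χ hr' n : Matrix (Fin 3) (Fin 3) k).map (algebraMap k K)).mulVec x =
          (fun i => f (c χ ((r i)⁻¹ * n * r i)) * x i) := by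
        ext i
        rw [Matrix.mulVec, dotProduct, Finset.sum_eq_single i]
        · rfl
        · intro b _ hb
          rw [Matrix.map_apply, rep_val, mat, Matrix.of_apply]
          have h3 : (r i)⁻¹ * n * r b ∉ N := by
            intro h4
            have h5 : (r i)⁻¹ * n * (r i)⁻¹⁻¹ ∈ N := hN.conj_mem n hn _
            have h6 := mul_mem (inv_mem h5) h4
            have h7 : ((r i)⁻¹ * n * (r i)⁻¹⁻¹)⁻¹ * ((r i)⁻¹ * n * r b) = (r i)⁻¹ * r b := by group
            rw [h7] at h6
            exact hb ((mem_iff hr' i b).1 h6).symm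
          rw [c_not χ h3, map_zero, zero_mul]
        · intro h
          exact absurd (Finset.mem_univ _) h
      rw [← h2]
      exact h1
    obtain ⟨x, hxV, hx0⟩ := (Submodule.ne_bot_iff V).1 hbot
    obtain ⟨i, hi⟩ := Function.ne_iff.1 hx0
    have hS : ∀ S : Finset (Fin 3), i ∉ S → ∃ y ∈ V, y i ≠ 0 ∧ ∀ j ∈ S, y j = 0 := by
      intro S
      induction S using Finset.induction_on with
      | empty => exact fun _ => ⟨x, hxV, hi, by simp⟩
      | insert a S ha ih =>
        intro hiS
        rw [Finset.mem_insert, not_or] at hiS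
        obtain ⟨y, hy, hyi, hyS⟩ := ih hiS.2
        obtain ⟨n, hn, hnn⟩ := hdist i a hiS.1
        refine ⟨(fun l => f (c χ ((r l)⁻¹ * n * r l)) * y l) - f (c χ ((r a)⁻¹ * n * r a)) • y,
          V.sub_mem (hact n hn y hy) (V.smul_mem _ hy), ?_, ?_⟩
        · rw [Pi.sub_apply, Pi.smul_apply, smul_eq_mul, ← sub_mul]
          refine mul_ne_zero ?_ hyi
          rw [sub_ne_zero]
          exact fun h => hnn (hfinj h)
        · intro l hl
          rw [Pi.sub_apply, Pi.smul_apply, smul_eq_mul, ← sub_mul]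
          rcases Finset.mem_insert.1 hl with rfl | hl
          · rw [sub_self, zero_mul]
          · rw [hyS l hl, mul_zero]
    obtain ⟨y, hyV, hyi, hyz⟩ := hS (Finset.univ.erase i) (Finset.notMem_erase _ _)
    have hei : (Pi.single i 1 : Fin 3 → K) ∈ V := by
      have h1 : (Pi.single i 1 : Fin 3 → K) = (y i)⁻¹ • y := by
        ext l
        by_cases hl : l = i
        · subst hl
          rw [Pi.single_eq_same, Pi.smul_apply, smul_eq_mul, inv_mul_cancel₀ hyi]
        · rw [Pi.single_eq_of_ne hl, Pi.smul_apply,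
            hyz l (Finset.mem_erase.2 ⟨hl, Finset.mem_univ _⟩), smul_zero]
      rw [h1]
      exact V.smul_mem _ hyV
    have hej : ∀ j : Fin 3, (Pi.single j 1 : Fin 3 → K) ∈ V := by
      intro j
      have h1 := hV (r j * (r i)⁻¹) _ hei
      have h2 : ((rep χ hr' (r j * (r i)⁻¹) : Matrix (Fin 3) (Fin 3) k).map
          (algebraMap k K)).mulVec (Pi.single i 1) = Pi.single j 1 := by
        rw [Matrix.mulVec_single_one]
        ext l
        rw [Matrix.col_apply, Matrix.map_apply, rep_val, mat, Matrix.of_apply]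
        have h3 : (r l)⁻¹ * (r j * (r i)⁻¹) * r i = (r l)⁻¹ * r j := by group
        rw [h3]
        by_cases hl : l = j
        · subst hl
          rw [inv_mul_cancel, c_one, map_one, Pi.single_eq_same]
        · rw [c_not χ (fun h4 => hl ((mem_iff hr' l j).1 h4)), map_zero, Pi.single_eq_of_ne hl]
      rw [h2] at h1
      exact h1
    rw [eq_top_iff]
    intro v _
    have hv : v = ∑ j : Fin 3, v j • (Pi.single j 1 : Fin 3 → K) := by
      ext l
      rw [Finset.sum_apply, Finset.sum_eq_single l]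
      · rw [Pi.smul_apply, Pi.single_eq_same, smul_eq_mul, mul_one]
      · intro b _ hb
        rw [Pi.smul_apply, Pi.single_eq_of_ne hb.symm, smul_zero]
      · intro h
        exact absurd (Finset.mem_univ _) h
    rw [hv]
    exact V.sum_mem fun j _ => V.smul_mem _ (hej j)
  · intro M hM g
    rw [← map_pow]
    apply rep_one
    intro x
    have h1 : x * g ^ 3 * x⁻¹ ∈ N := by
      refine hN.conj_mem _ ?_ x
      have := N.pow_index_mem g
      rwa [hidx] at this
    have h2 : x * g ^ (3 * M) * x⁻¹ = (x * g ^ 3 * x⁻¹) ^ M := by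
      rw [conj_pow, pow_mul]
    have h3 : x * g ^ (3 * M) * x⁻¹ ∈ N := by
      rw [h2]
      exact pow_mem h1 M
    refine ⟨h3, ?_⟩
    have h4 : (⟨x * g ^ (3 * M) * x⁻¹, h3⟩ : N) = (⟨x * g ^ 3 * x⁻¹, h1⟩ : N) ^ M := by
      apply Subtype.ext
      exact h2
    rw [h4, map_pow, hM]

end Pool.Agent.Helper74.QR.IND
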