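import Pool.Agent.Helper74.QR.Stm

/-! Finite fields of characteristic 2 with a primitive `n`-th root of unity (module by helper90) -/

set_option autoImplicit false

namespace Pool.Agent.Helper74.QR.KF

theorem main : S_KF := by
  intro n hn
  have hpos : 0 < n := hn.pos
  haveI : Fact (Nat.Prime 2) := ⟨Nat.prime_two⟩
  have hphi : n.totient ≠ 0 := (Nat.totient_pos.2 hpos).ne'
  refine ⟨GaloisField 2 n.totient, inferInstance, inferInstance, inferInstance, ?_⟩
  have hcard : Nat.card (GaloisField 2 n.totient) = 2 ^ n.totient := GaloisField.card 2 _ hphi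
  have hu : Nat.card (GaloisField 2 n.totient)ˣ = 2 ^ n.totient - 1 := by
    rw [Nat.card_units, hcard]
  have hdvd : n ∣ Nat.card (GaloisField 2 n.totient)ˣ := by
    rw [hu]
    have h1 : Nat.Coprime 2 n := (Nat.coprime_two_left).2 hn
    exact (Nat.modEq_iff_dvd' Nat.one_le_two_pow).1 (Nat.ModEq.pow_totient h1).symm
  obtain ⟨g, hg⟩ := IsCyclic.exists_ofOrder_eq_natCard (α := (GaloisField 2 n.totient)ˣ)
  obtain ⟨d, hd⟩ := hdvd
  have hN : 0 < Nat.card (GaloisField 2 n.totient)ˣ := Nat.card_pos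
  have hdpos : 0 < d := by
    rcases Nat.eq_zero_or_pos d with h | h
    · rw [h, mul_zero] at hd; omega
    · exact h
  refine ⟨((g ^ d : (GaloisField 2 n.totient)ˣ) : GaloisField 2 n.totient), ?_⟩
  rw [IsPrimitiveRoot.coe_units_iff]
  have h2 : orderOf (g ^ d) = n := by
    rw [orderOf_pow, hg, hd, Nat.gcd_eq_right (Dvd.intro_left _ rfl), Nat.mul_div_cancel _ hdpos]
  exact (IsPrimitiveRoot.iff_orderOf).2 h2

end Pool.Agent.Helper74.QR.KF
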