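import Pool.Agent.Helper74.QR.Stm

/-! Module MOV (helper30). -/

set_option autoImplicit false

namespace Pool.Agent.Helper74.QR

open NumberField IntermediateField

namespace MOV

theorem mov_exists (F Ω : Type) [Field F] [NumberField F] [Field Ω] [Algebra F Ω] [IsAlgClosure F Ω]
    (K : IntermediateField F Ω) (x : Ω) (hx : x ∉ K) :
    ∃ s : Ω ≃ₐ[F] Ω, (∀ w ∈ K, s w = w) ∧ s x ≠ x := by
  have : Algebra.IsAlgebraic F Ω := IsAlgClosure.isAlgebraic
  have : IsAlgClosed Ω := IsAlgClosure.isAlgClosed F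
  have : Normal F Ω := normal_iff.2 fun w => ⟨Algebra.IsIntegral.isIntegral w, IsAlgClosed.splits _⟩
  have : IsGalois F Ω := IsGalois.mk
  by_contra hcon
  push Not at hcon
  apply hx
  have h := InfiniteGalois.fixedField_fixingSubgroup K
  rw [← h, IntermediateField.mem_fixedField_iff]
  intro f hf
  exact hcon f (fun w hw => hf ⟨w, hw⟩)

theorem main : S_MOV := by
  intro F Ω _ _ _ _ _ m z y n hm hz hz3 hzn hy0 hy hcube
  have : CharZero Ω := charZero_of_injective_algebraMap (algebraMap F Ω).injective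
  have hm1 : 3 ^ m = 3 ^ (m - 1) * 3 := by
    rw [← pow_succ]; congr 1; omega
  set ω := z ^ (3 ^ (m - 1)) with hω
  have hωp : IsPrimitiveRoot ω 3 := hz.pow (by positivity) hm1
  have hz0 : z ≠ 0 := hz.ne_zero (by positivity)
  refine ⟨?_, ?_⟩
  · obtain ⟨s, hs, hsz⟩ := mov_exists F Ω F⟮ω⟯ z hzn
    have h1 : (s z) ^ 3 = z ^ 3 := by rw [← map_pow]; exact hs _ hz3
    have h2 : (s z / z) ^ 3 = 1 := by
      rw [div_pow, h1, div_self (pow_ne_zero _ hz0)]
    obtain ⟨i, hi, hi2⟩ := hωp.eq_pow_of_pow_eq_one h2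
    refine ⟨s, (i : ℤ), ?_, ?_⟩
    · intro hd
      have hi0 : i = 0 := by
        have : 3 ∣ i := by exact_mod_cast hd
        omega
      rw [hi0, pow_zero] at hi2
      apply hsz
      rw [eq_div_iff hz0, one_mul] at hi2
      exact hi2.symm
    · have h3 : s z = z * ω ^ i := by
        rw [hi2, mul_div_cancel₀ _ hz0]
      rw [h3, zpow_add₀ hz0, zpow_one, zpow_mul, hω]
      norm_cast
  · have hn : (n : Ω) + ω ^ 2 ≠ 0 := by
      intro h0
      rw [h0, mul_zero] at hy
      have h4 : ω = ω ^ 2 := by linear_combination hy.symm - h0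
      have h5 : ω ^ 1 = ω ^ 2 := by rw [pow_one]; exact h4
      have := hωp.pow_inj (by norm_num) (by norm_num) h5
      omega
    have hu : y ^ (3 ^ (m - 1)) ∉ F⟮z⟯ := by
      intro hu
      apply hcube _ hu
      rw [← pow_mul, ← hm1]
      exact hy
    obtain ⟨τ, hτ, hτu⟩ := mov_exists F Ω F⟮z⟯ _ hu
    have hτz : τ z = z := hτ z (mem_adjoin_simple_self F z)
    have hτω : τ ω = ω := by rw [hω, map_pow, hτz]
    have h6 : (τ y) ^ (3 ^ m) * ((n : Ω) + ω ^ 2) = (n : Ω) + ω := by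
      have := congrArg τ hy
      rw [map_mul, map_add, map_add, map_pow, map_pow, hτω, map_intCast] at this
      exact this
    have h7 : (τ y / y) ^ (3 ^ m) = 1 := by
      have h8 : (τ y) ^ (3 ^ m) = y ^ (3 ^ m) := mul_right_cancel₀ hn (h6.trans hy.symm)
      rw [div_pow, h8, div_self (pow_ne_zero _ hy0)]
    obtain ⟨t, ht, ht2⟩ := hz.eq_pow_of_pow_eq_one h7
    have h9 : τ y = y * z ^ t := by rw [ht2, mul_div_cancel₀ _ hy0]
    refine ⟨τ, (t : ℤ), ?_, hτz, by rw [zpow_natCast]; exact h9⟩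
    intro hd
    have hd' : 3 ∣ t := by exact_mod_cast hd
    obtain ⟨k, rfl⟩ := hd'
    apply hτu
    rw [map_pow, h9, mul_pow, ← pow_mul]
    have h10 : z ^ (3 * k * 3 ^ (m - 1)) = 1 := by
      rw [show 3 * k * 3 ^ (m - 1) = 3 ^ m * k by rw [hm1]; ring, pow_mul, hz.pow_eq_one, one_pow]
    rw [h10, mul_one]

end MOV

end Pool.Agent.Helper74.QR
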