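import Pool.Agent.Helper74.QR.Stm

/-! The root of unity (module by helper90) -/

set_option autoImplicit false

namespace Pool.Agent.Helper74.QR.ZM

open NumberField IntermediateField Polynomial

theorem finrank_le {F Ω : Type} [Field F] [Field Ω] [Algebra F Ω] {w : Ω} (hw : IsPrimitiveRoot w 3) :
    FiniteDimensional F F⟮w⟯ ∧ Module.finrank F F⟮w⟯ ≤ 2 := by
  have h0 : w ^ 2 + w + 1 = 0 := by
    have h1 : (w - 1) * (w ^ 2 + w + 1) = 0 := by
      have := hw.pow_eq_one
      linear_combination this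
    rcases mul_eq_zero.1 h1 with h | h
    · exact absurd (sub_eq_zero.1 h) (hw.ne_one (by norm_num))
    · exact h
  have hm : (X ^ 2 + X + 1 : F[X]).Monic := by monicity!
  have hdeg : (X ^ 2 + X + 1 : F[X]).natDegree = 2 := by compute_degree!
  have hev : aeval w (X ^ 2 + X + 1 : F[X]) = 0 := by simpa using h0
  have hint : IsIntegral F w := ⟨_, hm, by simpa [aeval_def] using hev⟩
  refine ⟨adjoin.finiteDimensional hint, ?_⟩
  rw [adjoin.finrank hint]
  calc (minpoly F w).natDegree ≤ (X ^ 2 + X + 1 : F[X]).natDegree :=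
        natDegree_le_of_dvd (minpoly.dvd F w hev) hm.ne_zero
    _ = 2 := hdeg

theorem main : S_ZM := by
  intro F Ω _ _ _ _ _
  haveI : CharZero Ω := charZero_of_injective_algebraMap (algebraMap F Ω).injective
  haveI : IsAlgClosed Ω := IsAlgClosure.isAlgClosed F
  classical
  have key : ∃ m : ℕ, ∃ z : Ω, IsPrimitiveRoot z (3 ^ m) ∧ z ∉ F⟮z ^ (3 ^ (m - 1))⟯ := by
    by_contra hcon
    push Not at hcon
    set d := Module.finrank ℚ F with hd
    set m := d + 1 with hm
    haveI : NeZero ((3 ^ m : ℕ) : Ω) := ⟨by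
      have : (3 ^ m : ℕ) ≠ 0 := by positivity
      exact_mod_cast this⟩
    obtain ⟨z, hz⟩ := HasEnoughRootsOfUnity.exists_primitiveRoot Ω (3 ^ m)
    have h1 := hcon m z hz
    have hw : IsPrimitiveRoot (z ^ (3 ^ (m - 1))) 3 := by
      refine hz.pow (by positivity) ?_
      rw [hm, Nat.add_sub_cancel, pow_succ]
    obtain ⟨hf, h2⟩ := finrank_le (F := F) hw
    set K := F⟮z ^ (3 ^ (m - 1))⟯ with hK
    have hz' : IsPrimitiveRoot (⟨z, h1⟩ : K) (3 ^ m) :=
      IsPrimitiveRoot.of_map_of_injective (f := algebraMap K Ω) hz (algebraMap K Ω).injective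
    have h3 : (minpoly ℚ (⟨z, h1⟩ : K)).natDegree = Nat.totient (3 ^ m) := by
      rw [← cyclotomic_eq_minpoly_rat hz' (by positivity), natDegree_cyclotomic]
    have h4 : Module.finrank ℚ F * Module.finrank F K = Module.finrank ℚ K :=
      Module.finrank_mul_finrank ℚ F K
    haveI : FiniteDimensional ℚ K := FiniteDimensional.trans ℚ F K
    have h5 : (minpoly ℚ (⟨z, h1⟩ : K)).natDegree ≤ Module.finrank ℚ K := minpoly.natDegree_le _
    rw [h3, ← h4, Nat.totient_prime_pow Nat.prime_three (by omega), ← hd] at h5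
    have h6 : d * Module.finrank F K ≤ d * 2 := Nat.mul_le_mul_left _ h2
    have h7 : d < 3 ^ d := Nat.lt_pow_self (by norm_num)
    have h8 : m - 1 = d := by omega
    rw [h8] at h5
    omega
  obtain ⟨z, hz, hnot⟩ := Nat.find_spec key
  set m := Nat.find key with hm
  have hmin : ∀ k < m, ∀ u : Ω, IsPrimitiveRoot u (3 ^ k) → u ∈ F⟮u ^ (3 ^ (k - 1))⟯ := by
    intro k hk u hu
    by_contra h
    exact Nat.find_min key hk ⟨u, hu, h⟩
  have hm2 : 2 ≤ m := by
    by_contra h
    have : 3 ^ (m - 1) = 1 := by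
      have : m - 1 = 0 := by omega
      rw [this, pow_zero]
    rw [this, pow_one] at hnot
    exact hnot (mem_adjoin_simple_self F z)
  refine ⟨m, z, hm2, hz, ?_, hnot⟩
  have h1 : IsPrimitiveRoot (z ^ 3) (3 ^ (m - 1)) := by
    refine hz.pow (by positivity) ?_
    rw [← pow_succ']
    congr 1
    omega
  have h2 := hmin (m - 1) (by omega) _ h1
  rwa [← pow_mul, ← pow_succ', show m - 1 - 1 + 1 = m - 1 by omega] at h2

end Pool.Agent.Helper74.QR.ZM
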