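import Pool.Agent.Helper74.QR.Stm
import Pool.Agent.Helper74.QE.Stm
import Pool.Graph.R_seed8.W178.MZ.K6

/-!
# Assembly: residual representations of odd image over every number field (helper74)
-/

set_option autoImplicit false

namespace Pool.Agent.Helper74.QR.FIN

open NumberField IsDedekindDomain IntermediateField MZ

/-- the action on the units -/
noncomputable def act (F Ω : Type) [Field F] [Field Ω] [Algebra F Ω] : (Ω ≃ₐ[F] Ω) →* MulAut Ωˣ where
  toFun g := Units.mapEquiv (g : Ω ≃* Ω)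
  map_one' := by ext x; rfl
  map_mul' g h := by ext x; rfl

lemma act_val {F Ω : Type} [Field F] [Field Ω] [Algebra F Ω] (g : Ω ≃ₐ[F] Ω) (x : Ωˣ) :
    ((act F Ω g x : Ωˣ) : Ω) = g x := rfl

theorem main (hKF : S_KF) (hBETA : S_BETA) (hZM : S_ZM) (hACT : S_ACT) (hMOV : S_MOV) (hCHI : S_CHI)
    (hIND : S_IND) (hU : Pool.Agent.Helper74.QE.S_UNRF)
    (F Ω : Type) [Field F] [NumberField F] [Field Ω] [Algebra F Ω] [IsAlgClosure F Ω] :
    ∃ (S₀ : Set (HeightOneSpectrum (𝓞 F))) (k : Type) (_ : Field k) (_ : Finite k) (_ : CharP k 2)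
    (ρ₀ : GFS Ω S₀ →* GL (Fin 3) k),
    S₀.Finite ∧ (∀ v : HeightOneSpectrum (𝓞 F), (2 : 𝓞 F) ∈ v.asIdeal → v ∈ S₀) ∧
    IsOpen (ρ₀.ker : Set (GFS Ω S₀)) ∧ AbsIrred ρ₀ ∧ (∀ g, g * g = 1 → ρ₀ g = 1) ∧
    ∃ m : ℕ, Odd m ∧ ∀ g, ρ₀ g ^ m = 1 := by
  have hcl : IsAlgClosed Ω := IsAlgClosure.isAlgClosed F
  have hch : CharZero Ω := charZero_of_injective_algebraMap (algebraMap F Ω).injective
  have halg : Algebra.IsAlgebraic F Ω := IsAlgClosure.isAlgebraic
  have hnorm : Normal F Ω := IsAlgClosure.normal F Ω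
  obtain ⟨m, z, hm, hz, hz3, hzn⟩ := hZM F Ω
  set ω : Ω := z ^ (3 ^ (m - 1)) with hωdef
  have hmm : 3 ^ m = 3 ^ (m - 1) * 3 := by
    rw [← pow_succ]; congr 1; omega
  have hω : IsPrimitiveRoot ω 3 := hz.pow (by positivity) hmm
  have hω2 : ω ^ 2 + ω + 1 = 0 := by
    have h1 : (ω - 1) * (ω ^ 2 + ω + 1) = 0 := by
      have := hω.pow_eq_one
      linear_combination this
    rcases mul_eq_zero.mp h1 with h | h
    · exact absurd (sub_eq_zero.mp h) (hω.ne_one (by norm_num))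
    · exact h
  have hint : IsIntegral F z := Algebra.IsIntegral.isIntegral z
  have hfdE : FiniteDimensional F F⟮z⟯ := IntermediateField.adjoin.finiteDimensional hint
  have hnfE : NumberField F⟮z⟯ := NumberField.of_module_finite F F⟮z⟯
  let ωE : F⟮z⟯ := (⟨z, IntermediateField.mem_adjoin_simple_self F z⟩ : F⟮z⟯) ^ (3 ^ (m - 1))
  have hωE : (ωE : Ω) = ω := rfl
  have hωE2 : ωE ^ 2 + ωE + 1 = 0 := Subtype.ext hω2
  obtain ⟨n, hn⟩ := hBETA F⟮z⟯ ωE hωE2
  have hn' : ∀ x ∈ F⟮z⟯, x ^ 3 * ((n : Ω) + ω ^ 2) ≠ (n : Ω) + ω := by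
    intro x hx h
    exact hn ⟨x, hx⟩ (Subtype.ext h)
  have hN : ((n : Ω) + ω) * ((n : Ω) + ω ^ 2) = ((n ^ 2 - n + 1 : ℤ) : Ω) := by
    push_cast
    linear_combination ((n : Ω) + ω - 1) * hω2
  have hN0 : ((n ^ 2 - n + 1 : ℤ) : Ω) ≠ 0 := by
    rw [Int.cast_ne_zero]
    nlinarith [sq_nonneg (2 * n - 1)]
  have ha0 : (n : Ω) + ω ≠ 0 := by
    intro h; rw [h, zero_mul] at hN; exact hN0 hN.symm
  have hb0 : (n : Ω) + ω ^ 2 ≠ 0 := by
    intro h; rw [h, mul_zero] at hN; exact hN0 hN.symm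
  have h3m : 0 < 3 ^ m := by positivity
  obtain ⟨y, hy⟩ := IsAlgClosed.exists_pow_nat_eq (((n : Ω) + ω) / ((n : Ω) + ω ^ 2)) h3m
  have hy' : y ^ (3 ^ m) * ((n : Ω) + ω ^ 2) = (n : Ω) + ω := by
    rw [hy, div_mul_cancel₀ _ hb0]
  have hy0 : y ≠ 0 := by
    rintro rfl
    rw [zero_pow h3m.ne', zero_mul] at hy'
    exact ha0 hy'.symm
  have hz0 : z ≠ 0 := hz.ne_zero h3m.ne'
  have hact := hACT F Ω m z y n hm hz hz3 hy0 hy'
  obtain ⟨hs, hτ⟩ := hMOV F Ω m z y n hm hz hz3 hzn hy0 hy' hn'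
  let zU : Ωˣ := Units.mk0 z hz0
  let yU : Ωˣ := Units.mk0 y hy0
  have hord : orderOf zU = 3 ^ m := by
    rw [← orderOf_units]
    exact hz.eq_orderOf.symm
  obtain ⟨k, _, _, _, w, hw⟩ := hKF (3 ^ m) (Odd.pow (by decide))
  obtain ⟨N, χ, hN1, hN2, hN3, hN4, hN5⟩ := hCHI (Ω ≃ₐ[F] Ω) Ωˣ (act F Ω) m zU yU hm hord
    (by
      intro g
      obtain ⟨e, j, t, he, h1, h2⟩ := hact g
      refine ⟨e, j, t, he, ?_, ?_⟩
      · apply Units.ext
        rw [act_val, Units.val_zpow_eq_zpow_val]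
        exact h1
      · apply Units.ext
        rw [act_val, Units.val_mul, Units.val_zpow_eq_zpow_val, Units.val_zpow_eq_zpow_val]
        exact h2)
    (by
      obtain ⟨s, j, hj, h1⟩ := hs
      refine ⟨s, j, hj, ?_⟩
      apply Units.ext
      rw [act_val, Units.val_zpow_eq_zpow_val]
      exact h1)
    (by
      obtain ⟨τ, t, ht, h1, h2⟩ := hτ
      refine ⟨τ, t, ht, Units.ext h1, ?_⟩
      apply Units.ext
      rw [act_val, Units.val_mul, Units.val_zpow_eq_zpow_val]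
      exact h2) k w hw
  obtain ⟨ρ, hirr, hker, hexp⟩ := hIND (Ω ≃ₐ[F] Ω) N k χ hN1 hN2 hN3
  have hρ1 : ∀ g : Ω ≃ₐ[F] Ω, g z = z → g y = y → ρ g = 1 := fun g h1 h2 =>
    hker g (hN5 g (Units.ext h1) (Units.ext h2))
  have hρ2 := hexp (3 ^ m) hN4
  -- the field `F(z, y)`
  let L : IntermediateField F Ω := IntermediateField.adjoin F {z, y}
  have hfd : FiniteDimensional F L := by
    apply IntermediateField.finiteDimensional_adjoin
    intro z _
    exact Algebra.IsIntegral.isIntegral z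
  obtain ⟨S₁, hS₁, hunr⟩ := hU F Ω L
  let S₂ : Set (HeightOneSpectrum (𝓞 F)) := {v | (2 : 𝓞 F) ∈ v.asIdeal}
  have hS₂ : S₂.Finite := by
    have h0 : (Ideal.span {(2 : 𝓞 F)}) ≠ 0 := by
      rw [Ne, Ideal.zero_eq_bot, Ideal.span_singleton_eq_bot]
      norm_num
    refine (Ideal.finite_factors h0).subset ?_
    intro v hv
    show v.asIdeal ∣ _
    rw [Ideal.dvd_iff_le, Ideal.span_singleton_le_iff_mem]
    exact hv
  let S₀ : Set (HeightOneSpectrum (𝓞 F)) := S₁ ∪ S₂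
  have hle : L ≤ (FSmax S₀ : IntermediateField F Ω) := by
    unfold FSmax
    exact le_iSup (fun K : {K : IntermediateField F Ω //
      FiniteDimensional F K ∧ UnramifiedOutside S₀ K} => K.1)
      ⟨L, hfd, fun w hw => hunr w fun v hv => hw v (Or.inl hv)⟩
  have hgS : IsGalois F (FSmax S₀ : IntermediateField F Ω) := Pool.Agent.W178.MZK.K7 F Ω S₀
  let M : IntermediateField F Ω := FSmax S₀
  have hzM : z ∈ M := hle (IntermediateField.subset_adjoin _ _ (by simp))
  have hyM : y ∈ M := hle (IntermediateField.subset_adjoin _ _ (by simp))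
  let r : (Ω ≃ₐ[F] Ω) →* Gal(M/F) := AlgEquiv.restrictNormalHom M
  have hr : Function.Surjective r := AlgEquiv.restrictNormalHom_surjective Ω
  have hrc : ∀ g (x : M), ((r g x : M) : Ω) = g x := fun g x => AlgEquiv.restrictNormal_commutes g M x
  have hkr : r.ker ≤ ρ.ker := by
    intro g hg
    rw [MonoidHom.mem_ker] at hg ⊢
    apply hρ1
    · have := hrc g ⟨z, hzM⟩
      rw [hg] at this
      exact this.symm
    · have := hrc g ⟨y, hyM⟩
      rw [hg] at this
      exact this.symm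
  let ρ₀ : Gal(M/F) →* GL (Fin 3) k := (MonoidHom.liftOfSurjective r hr) ⟨ρ, hkr⟩
  have hρ₀ : ∀ g, ρ₀ (r g) = ρ g := fun g =>
    MonoidHom.liftOfRightInverse_comp_apply r (Function.surjInv hr) (Function.rightInverse_surjInv hr) ⟨ρ, hkr⟩ g
  have hexp0 : ∀ g, ρ₀ g ^ (3 * 3 ^ m) = 1 := by
    intro g
    obtain ⟨g', rfl⟩ := hr g
    rw [hρ₀]
    exact hρ2 g'
  have hodd : Odd (3 * 3 ^ m) := by
    rw [← pow_succ']
    exact Odd.pow (by decide)
  refine ⟨S₀, k, inferInstance, inferInstance, inferInstance, ρ₀, hS₁.union hS₂,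
    fun v hv => Or.inr hv, ?_, ?_, ?_, 3 * 3 ^ m, hodd, hexp0⟩
  · let zM : M := ⟨z, hzM⟩
    let yM : M := ⟨y, hyM⟩
    let L' : IntermediateField F M := IntermediateField.adjoin F {zM, yM}
    have hfd' : FiniteDimensional F L' := by
      apply IntermediateField.finiteDimensional_adjoin
      intro z _
      exact Algebra.IsIntegral.isIntegral z
    refine Subgroup.isOpen_mono (H₁ := L'.fixingSubgroup) ?_ (IntermediateField.fixingSubgroup_isOpen L')
    intro g hg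
    obtain ⟨g', rfl⟩ := hr g
    rw [MonoidHom.mem_ker, hρ₀]
    rw [IntermediateField.mem_fixingSubgroup_iff] at hg
    apply hρ1
    · have h1 := hg zM (IntermediateField.subset_adjoin _ _ (by simp))
      have h2 := hrc g' zM
      rw [h1] at h2
      exact h2.symm
    · have h1 := hg yM (IntermediateField.subset_adjoin _ _ (by simp))
      have h2 := hrc g' yM
      rw [h1] at h2
      exact h2.symm
  · intro V hV
    apply hirr V
    intro g x hx
    have := hV (r g) x hx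
    rw [hρ₀] at this
    exact this
  · intro g hg
    have h1 : ρ₀ g * ρ₀ g = 1 := by rw [← map_mul, hg, map_one]
    obtain ⟨q, hq⟩ := hodd
    have h3 := hexp0 g
    rw [hq, pow_succ, pow_mul, pow_two, h1, one_pow, one_mul] at h3
    exact h3

end Pool.Agent.Helper74.QR.FIN
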