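import Mathlib

/-!
# Absolutely irreducible representations of degree 3 in characteristic 2 with image of odd order, over every
number field without cube roots of unity: statements of the modules (helper74)

`z` is a primitive `3^m`-th root of unity, `m ≥ 2` minimal with `z ∉ F(ω)`, `ω = z^(3^(m-1))`;
`β = (n + ω) / (n + ω²)` is not a cube in `F(z)`, `y^(3^m) = β`. Every automorphism `g` of `Ω / F` acts by
`g z = z^(e a)`, `g y = y^e z^(e t)` with `e = ±1`, `a ≡ 1 mod 3^(m-1)`.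
-/

set_option autoImplicit false

namespace Pool.Agent.Helper74.QR

open NumberField IntermediateField

/-- KF: finite fields of characteristic 2 with a primitive `n`-th root of unity, `n` odd. -/
def S_KF : Prop :=
  ∀ n : ℕ, Odd n → ∃ (k : Type) (_ : Field k) (_ : Finite k) (_ : CharP k 2) (w : k), IsPrimitiveRoot w n

/-- BETA: some `(n + ω) / (n + ω²)` is not a cube in `E`. Proof: take a prime `p ≡ 1 mod 3` which is
unramified in `E` (Dirichlet: `Nat.forall_exists_prime_gt_and_eq_mod`; only finitely many primes ramify, e.g.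
`Pool.Agent.Helper74.QE.UNRF` or the discriminant), `n` with `v_p (n² - n + 1) = 1` (a root `n` of
`n² - n + 1` mod `p` exists as `p ≡ 1 mod 3`; replace `n` by `n + p` if necessary, `2 n - 1` is prime to `p`).
A prime `P` of `E` containing `p` and `n + ω` does not contain `n + ω²` (else `3 ∈ P`), and
`(n + ω)(n + ω²) = n² - n + 1`, so `v_P (n + ω) = 1` and `v_P (n + ω²) = 0` (if `P` contains `n + ω²` instead,
exchange the two): `x³ (n + ω²) = n + ω` gives `3 v_P(x) = ± 1`. -/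
def S_BETA : Prop :=
  ∀ (E : Type) [Field E] [NumberField E] (ω : E), ω ^ 2 + ω + 1 = 0 →
    ∃ n : ℤ, ∀ x : E, x ^ 3 * ((n : E) + ω ^ 2) ≠ (n : E) + ω

/-- ZM: the root of unity. (`F(ω)` contains only finitely many roots of unity; take `m` minimal such that a
primitive `3^m`-th root of unity is not in `F(ω)`; all primitive cube roots of unity generate `F(ω)`.) -/
def S_ZM : Prop :=
  ∀ (F Ω : Type) [Field F] [NumberField F] [Field Ω] [Algebra F Ω] [IsAlgClosure F Ω],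
    ∃ (m : ℕ) (z : Ω), 2 ≤ m ∧ IsPrimitiveRoot z (3 ^ m) ∧ z ^ 3 ∈ F⟮z ^ (3 ^ (m - 1))⟯ ∧
      z ∉ F⟮z ^ (3 ^ (m - 1))⟯

/-- ACT: the action of an automorphism. With `ω = z^(3^(m-1))`: `g ω = ω` or `g ω = ω²`. If `g ω = ω` then `g`
fixes `z³`, so `g z = z ω^j`, and `g` fixes `β`, so `g y = y z^t`. If `g ω = ω⁻¹`: `g (z³) = z^(3a)`,
`g²` fixes `z³ ∈ F(ω)`, so `a² ≡ 1 mod 3^(m-1)`, `a ≡ -1 mod 3`, so `a ≡ -1 mod 3^(m-1)` and
`(g z)³ = z^(-3)`; `g β = β⁻¹`. -/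
def S_ACT : Prop :=
  ∀ (F Ω : Type) [Field F] [Field Ω] [CharZero Ω] [Algebra F Ω] (m : ℕ) (z y : Ω) (n : ℤ), 2 ≤ m →
    IsPrimitiveRoot z (3 ^ m) → z ^ 3 ∈ F⟮z ^ (3 ^ (m - 1))⟯ → y ≠ 0 →
    y ^ (3 ^ m) * ((n : Ω) + (z ^ (3 ^ (m - 1))) ^ 2) = (n : Ω) + z ^ (3 ^ (m - 1)) →
    ∀ g : Ω ≃ₐ[F] Ω, ∃ e j t : ℤ, (e = 1 ∨ e = -1) ∧ g z = z ^ (e * (1 + 3 ^ (m - 1) * j)) ∧
      g y = y ^ e * z ^ (e * t)

/-- MOV: two automorphisms. `s` fixes `ω` and moves `z ∉ F(ω)` (so `s (z³) = z³`); `τ` fixes `z` and moves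
`y^(3^(m-1))`, a cube root of `β`, which is not in `F(z)`. (`Ω / K` is Galois for every intermediate field.) -/
def S_MOV : Prop :=
  ∀ (F Ω : Type) [Field F] [NumberField F] [Field Ω] [Algebra F Ω] [IsAlgClosure F Ω] (m : ℕ) (z y : Ω)
    (n : ℤ), 2 ≤ m → IsPrimitiveRoot z (3 ^ m) → z ^ 3 ∈ F⟮z ^ (3 ^ (m - 1))⟯ →
    z ∉ F⟮z ^ (3 ^ (m - 1))⟯ → y ≠ 0 →
    y ^ (3 ^ m) * ((n : Ω) + (z ^ (3 ^ (m - 1))) ^ 2) = (n : Ω) + z ^ (3 ^ (m - 1)) →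
    (∀ x ∈ F⟮z⟯, x ^ 3 * ((n : Ω) + (z ^ (3 ^ (m - 1))) ^ 2) ≠ (n : Ω) + z ^ (3 ^ (m - 1))) →
    (∃ (s : Ω ≃ₐ[F] Ω) (j : ℤ), ¬ (3 : ℤ) ∣ j ∧ s z = z ^ (1 + 3 ^ (m - 1) * j)) ∧
    ∃ (τ : Ω ≃ₐ[F] Ω) (t : ℤ), ¬ (3 : ℤ) ∣ t ∧ τ z = z ∧ τ y = y * z ^ t

/-- CHI (group theory): the normal subgroup `N = {g | g z = z^(±1)}` of index 3 and its character
`χ(g) = w^t` for `g y = y^e z^(e t)`. (`e` is determined by `g z`, as `1 + 3^(m-1) j ≡ 1 mod 3`; on `N` the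
exponents `t` add; `g ↦ j mod 3` is a homomorphism with kernel `N`, surjective by `s`; for `x` with the
exponent `a = 1 + 3^(m-1) j` one has `χ(x g x⁻¹) = χ(g)^a`.) -/
def S_CHI : Prop :=
  ∀ (G A : Type) [Group G] [CommGroup A] (φ : G →* MulAut A) (m : ℕ) (z y : A), 2 ≤ m →
    orderOf z = 3 ^ m →
    (∀ g : G, ∃ e j t : ℤ, (e = 1 ∨ e = -1) ∧ φ g z = z ^ (e * (1 + 3 ^ (m - 1) * j)) ∧
      φ g y = y ^ e * z ^ (e * t)) →
    (∃ (s : G) (j : ℤ), ¬ (3 : ℤ) ∣ j ∧ φ s z = z ^ (1 + 3 ^ (m - 1) * j)) →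
    (∃ (τ : G) (t : ℤ), ¬ (3 : ℤ) ∣ t ∧ φ τ z = z ∧ φ τ y = y * z ^ t) →
    ∀ (k : Type) [Field k] (w : k), IsPrimitiveRoot w (3 ^ m) →
    ∃ (N : Subgroup G) (χ : N →* kˣ), N.Normal ∧ N.index = 3 ∧
      (∃ (s : G) (n : N) (h : s * (n : G) * s⁻¹ ∈ N), χ ⟨s * n * s⁻¹, h⟩ ≠ χ n) ∧
      (∀ x : N, χ x ^ (3 ^ m) = 1) ∧
      ∀ g : G, φ g z = z → φ g y = y → ∀ x : G, ∃ h : x * g * x⁻¹ ∈ N, χ ⟨x * g * x⁻¹, h⟩ = 1

/-- IND (group theory): the representation of `G` induced from the character `χ` of the normal subgroup `N`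
of index 3: `ρ(g) i j = χ (s^-i g s^j)` if this lies in `N` and `0` otherwise. It is absolutely irreducible
because `χ`, `χ^s`, `χ^(s²)` are different. -/
def S_IND : Prop :=
  ∀ (G : Type) [Group G] (N : Subgroup G) (k : Type) [Field k] (χ : N →* kˣ), N.Normal → N.index = 3 →
    (∃ (s : G) (n : N) (h : s * (n : G) * s⁻¹ ∈ N), χ ⟨s * n * s⁻¹, h⟩ ≠ χ n) →
    ∃ ρ : G →* Matrix.GeneralLinearGroup (Fin 3) k,
      (∀ V : Submodule (AlgebraicClosure k) (Fin 3 → AlgebraicClosure k),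
        (∀ g, ∀ x ∈ V,
          ((ρ g : Matrix (Fin 3) (Fin 3) k).map (algebraMap k (AlgebraicClosure k))).mulVec x ∈ V) →
        V = ⊥ ∨ V = ⊤) ∧
      (∀ g : G, (∀ x : G, ∃ h : x * g * x⁻¹ ∈ N, χ ⟨x * g * x⁻¹, h⟩ = 1) → ρ g = 1) ∧
      ∀ M : ℕ, (∀ x : N, χ x ^ M = 1) → ∀ g : G, ρ g ^ (3 * M) = 1

end Pool.Agent.Helper74.QR
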